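import Mathlib
import Pool.Agent.W25.UN.Stm

/-! Task UN-PS2 (helper25): the presieved second sum `PS2` from `FLA` and `S2Gen`. -/

set_option autoImplicit false

namespace Pool.Agent.W334.UNPS2

open Finset
open Pool.Agent.H410R2 Pool.Agent.W25.UN

/-- two classes to coprime moduli are one class -/
lemma crt2 {m n : ℕ} (h : m.Coprime n) (a b : ℕ) :
    ∃ s, ∀ x, (x ≡ a [MOD m] ∧ x ≡ b [MOD n]) ↔ x ≡ s [MOD m * n] := by
  refine ⟨(Nat.chineseRemainder h a b : ℕ), fun x => ?_⟩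
  have h1 := (Nat.chineseRemainder h a b).2.1
  have h2 := (Nat.chineseRemainder h a b).2.2
  rw [← Nat.modEq_and_modEq_iff_modEq_mul h]
  exact ⟨fun hx => ⟨hx.1.trans h1.symm, hx.2.trans h2.symm⟩,
    fun hx => ⟨hx.1.trans h1, hx.2.trans h2⟩⟩

lemma cop_prod (T : Finset ℕ) (m : ℕ) (hc : ∀ p ∈ T, p.Coprime m) :
    (∏ p ∈ T, p).Coprime m := Nat.Coprime.prod_left hc

/-- classes modulo the primes of `T` are one class -/
lemma crtT (T : Finset ℕ) (hT : ∀ p ∈ T, p.Prime) (c : ℕ → ℕ) (hc : ∀ p ∈ T, c p < p) :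
    ∃ s, ∀ x, (∀ p ∈ T, x % p = c p) ↔ x ≡ s [MOD ∏ p ∈ T, p] := by
  classical
  induction T using Finset.induction_on with
  | empty => exact ⟨0, fun x => by simp [Nat.modEq_one]⟩
  | insert q T hq ih =>
    obtain ⟨s, hs⟩ := ih (fun p hp => hT p (mem_insert_of_mem hp))
      (fun p hp => hc p (mem_insert_of_mem hp))
    have hcop : q.Coprime (∏ p ∈ T, p) := by
      refine Nat.Coprime.prod_right fun p hp => ?_
      refine (Nat.coprime_primes (hT q (mem_insert_self _ _)) (hT p (mem_insert_of_mem hp))).2 ?_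
      rintro rfl
      exact hq hp
    obtain ⟨s', hs'⟩ := crt2 hcop (c q) s
    refine ⟨s', fun x => ?_⟩
    rw [prod_insert hq, ← hs' x, ← hs x]
    have hcq : x % q = c q ↔ x ≡ c q [MOD q] := by
      unfold Nat.ModEq
      rw [Nat.mod_eq_of_lt (hc q (mem_insert_self _ _))]
    constructor
    · intro h
      exact ⟨hcq.1 (h q (mem_insert_self _ _)), fun p hp => h p (mem_insert_of_mem hp)⟩
    · rintro ⟨h1, h2⟩ p hp
      rcases mem_insert.1 hp with rfl | hp
      · exact hcq.2 h1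
      · exact h2 p hp

lemma sf_prod (T : Finset ℕ) (hT : ∀ p ∈ T, p.Prime) : Squarefree (∏ p ∈ T, p) := by
  classical
  induction T using Finset.induction_on with
  | empty => simp
  | insert q T hq ih =>
    rw [prod_insert hq]
    have hcop : q.Coprime (∏ p ∈ T, p) := by
      refine Nat.Coprime.prod_right fun p hp => ?_
      refine (Nat.coprime_primes (hT q (mem_insert_self _ _)) (hT p (mem_insert_of_mem hp))).2 ?_
      rintro rfl
      exact hq hp
    exact (Nat.squarefree_mul hcop).2 ⟨(hT q (mem_insert_self _ _)).squarefree,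
      ih fun p hp => hT p (mem_insert_of_mem hp)⟩

lemma tot_prod (T : Finset ℕ) (hT : ∀ p ∈ T, p.Prime) :
    ((Nat.totient (∏ p ∈ T, p) : ℕ) : ℝ)⁻¹ = ∏ p ∈ T, (1 / ((p : ℝ) - 1)) := by
  classical
  induction T using Finset.induction_on with
  | empty => simp
  | insert q T hq ih =>
    rw [prod_insert hq, prod_insert hq]
    have hcop : q.Coprime (∏ p ∈ T, p) := by
      refine Nat.Coprime.prod_right fun p hp => ?_
      refine (Nat.coprime_primes (hT q (mem_insert_self _ _)) (hT p (mem_insert_of_mem hp))).2 ?_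
      rintro rfl
      exact hq hp
    have hqp := hT q (mem_insert_self _ _)
    rw [Nat.totient_mul hcop, Nat.totient_prime hqp, Nat.cast_mul, mul_inv,
      ih (fun p hp => hT p (mem_insert_of_mem hp)), Nat.cast_sub hqp.one_lt.le]
    simp

/-- the double sum over `T` and `q` is at most the sum over `m = e q` -/
lemma dsum (κ k : ℕ) (hk : κ ≤ k) (P : Finset ℕ) (hP : ∀ p ∈ P, p.Prime) (Y : ℕ) (R2 : ℝ)
    (A : Finset (Finset ℕ)) (hA : ∀ T ∈ A, T ⊆ P ∧ ∏ p ∈ T, p ≤ Y)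
    (B : Finset ℕ) (hB : ∀ q ∈ B, 1 ≤ q ∧ (q : ℝ) ≤ R2 ∧ Squarefree q ∧ ∀ p ∈ P, ¬ p ∣ q)
    (C : Finset ℕ) (hC : ∀ m : ℕ, 1 ≤ m → (m : ℝ) ≤ Y * R2 → Squarefree m → m ∈ C)
    (Dev : ℕ → ℝ) (hDev : ∀ m, 0 ≤ Dev m) :
    ∑ T ∈ A, (κ : ℝ) ^ T.card * ∑ q ∈ B, (k : ℝ) ^ q.primeFactors.card * Dev ((∏ p ∈ T, p) * q) ≤
      ∑ m ∈ C, (k : ℝ) ^ m.primeFactors.card * Dev m := by
  classical
  have hcop : ∀ T ∈ A, ∀ q ∈ B, (∏ p ∈ T, p).Coprime q := by
    intro T hT q hq
    refine Nat.Coprime.prod_left fun p hp => ?_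
    exact (hP p ((hA T hT).1 hp)).coprime_iff_not_dvd.2 ((hB q hq).2.2.2 p ((hA T hT).1 hp))
  have hTp : ∀ T ∈ A, ∀ p ∈ T, p.Prime := fun T hT p hp => hP p ((hA T hT).1 hp)
  have h1 : ∑ T ∈ A, (κ : ℝ) ^ T.card * ∑ q ∈ B, (k : ℝ) ^ q.primeFactors.card *
        Dev ((∏ p ∈ T, p) * q) ≤
      ∑ x ∈ A ×ˢ B, (k : ℝ) ^ ((∏ p ∈ x.1, p) * x.2).primeFactors.card *
        Dev ((∏ p ∈ x.1, p) * x.2) := by
    rw [sum_product]
    refine sum_le_sum fun T hT => ?_
    rw [mul_sum]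
    refine sum_le_sum fun q hq => ?_
    have hpf : ((∏ p ∈ T, p) * q).primeFactors.card = T.card + q.primeFactors.card := by
      rw [(hcop T hT q hq).primeFactors_mul, card_union_of_disjoint
        (hcop T hT q hq).disjoint_primeFactors, Nat.primeFactors_prod (hTp T hT)]
    rw [hpf, pow_add, ← mul_assoc]
    refine mul_le_mul_of_nonneg_right ?_ (hDev _)
    refine mul_le_mul_of_nonneg_right ?_ (by positivity)
    exact pow_le_pow_left₀ (by positivity) (by exact_mod_cast hk) _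
  refine h1.trans ?_
  have hinj : Set.InjOn (fun x : Finset ℕ × ℕ => (∏ p ∈ x.1, p) * x.2) (A ×ˢ B : Finset _) := by
    rintro ⟨T, q⟩ hx ⟨T', q'⟩ hx' hh
    simp only [coe_product, Set.mem_prod, mem_coe] at hx hx' hh
    have hrec : ∀ T ∈ A, ∀ q ∈ B, T = ((∏ p ∈ T, p) * q).primeFactors.filter (fun p => p ∈ P) := by
      intro T hT q hq
      ext p
      rw [mem_filter, (hcop T hT q hq).primeFactors_mul, mem_union,
        Nat.primeFactors_prod (hTp T hT)]
      constructor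
      · intro hp
        exact ⟨Or.inl hp, (hA T hT).1 hp⟩
      · rintro ⟨hp | hp, hpP⟩
        · exact hp
        · exact absurd (Nat.dvd_of_mem_primeFactors hp) ((hB q hq).2.2.2 p hpP)
    have hTT : T = T' := by
      rw [hrec T hx.1 q hx.2, hrec T' hx'.1 q' hx'.2, hh]
    subst hTT
    have hpos : 0 < ∏ p ∈ T, p := prod_pos fun p hp => (hTp T hx.1 p hp).pos
    rw [Nat.eq_of_mul_eq_mul_left hpos hh]
  rw [← sum_image (f := fun m : ℕ => (k : ℝ) ^ m.primeFactors.card * Dev m) hinj]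
  refine sum_le_sum_of_subset_of_nonneg ?_ fun m _ _ => mul_nonneg (by positivity) (hDev m)
  intro m hm
  obtain ⟨⟨T, q⟩, hx, rfl⟩ := mem_image.1 hm
  rw [mem_product] at hx
  obtain ⟨hT, hq⟩ := hx
  have hpos : 0 < ∏ p ∈ T, p := prod_pos fun p hp => (hTp T hT p hp).pos
  refine hC _ (Nat.succ_le_of_lt (Nat.mul_pos hpos (hB q hq).1)) ?_ ?_
  · have h2 : (((∏ p ∈ T, p) : ℕ) : ℝ) ≤ (Y : ℝ) := Nat.cast_le.2 (hA T hT).2
    rw [Nat.cast_mul]
    exact mul_le_mul h2 (hB q hq).2.1 (by positivity) (by positivity)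
  · exact (Nat.squarefree_mul (hcop T hT q hq)).2 ⟨sf_prod T (hTp T hT), (hB q hq).2.2.1⟩

open Classical in
theorem main (hF : FLA) (hS : S2Gen) : PS2 := by
  intro κ
  obtain ⟨C0, hC0, hFL⟩ := hF κ
  refine ⟨C0, hC0, ?_⟩
  intro ι J _ _ pr L i b Jj z0 P Om W v hκ hSD hb hz hP hOm hW hPW hpr hv c R hR hQ hc hcR S wt K
    Dev hwt hK hDev hyp
  have hPp : ∀ p ∈ P, p.Prime := fun p hp => (hP p hp).1
  set C1 : ℝ := (∏ t, (1 + (Fintype.card J : ℝ) / ((pr t : ℝ) - 1)) *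
    ((pr t : ℝ) / ((pr t : ℝ) - 1))) ^ 2 with hC1
  have hC1n : 0 ≤ C1 := sq_nonneg _
  have hphiW : 0 < (Nat.totient W : ℝ) := by exact_mod_cast Nat.totient_pos.2 hW
  set B : Finset ℕ := (Icc 1 ⌊R ^ 2⌋₊).filter (fun q => Squarefree q ∧ Over pr q) with hB
  have key := hFL b Jj z0 P (fun p => 1 / ((p : ℝ) - 1)) Om hb hz hP (fun p hp => (hOm p hp).1)
    (fun p hp => ⟨by
      have : (1 : ℝ) < p := by exact_mod_cast (hPp p hp).one_lt
      have h2 : (0 : ℝ) < (p : ℝ) - 1 := by linarith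
      positivity, le_refl _⟩)
    (S.filter (fun n => n ≡ v [MOD W])) (fun n => wt n * (∑ σ, c σ * hNI i L pr σ n) ^ 2)
    (K / (Nat.totient W : ℝ) * QI i pr c)
    (fun e => C1 * ∑ q ∈ B, (3 * (Fintype.card J : ℝ)) ^ q.primeFactors.card * Dev (e * q))
    (fun n hn => mul_nonneg (hwt n (mem_filter.1 hn).1) (sq_nonneg _))
    (mul_nonneg (div_nonneg hK hphiW.le) hQ)
    (fun m => mul_nonneg hC1n (sum_nonneg fun q _ => mul_nonneg (by positivity) (hDev _)))
    ?_
  · have e1 : (S.filter (fun n => n ≡ v [MOD W])).filter (fun n => ∀ p ∈ P, n % p ∉ Om p) =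
        S.filter (fun n => n ≡ v [MOD W] ∧ ∀ p ∈ P, n % p ∉ Om p) := by
      rw [filter_filter]
    have e2 : ∏ p ∈ P, (1 - ((Om p).card : ℝ) * (1 / ((p : ℝ) - 1))) =
        ∏ p ∈ P, (1 - ((Om p).card : ℝ) / ((p : ℝ) - 1)) :=
      prod_congr rfl fun p _ => by rw [mul_one_div]
    rw [e2] at key
    rw [← e1]
    have e3 : ∀ T : Finset ℕ, (κ : ℝ) ^ T.card * (C1 * ∑ q ∈ B,
        (3 * (Fintype.card J : ℝ)) ^ q.primeFactors.card * Dev ((∏ p ∈ T, p) * q)) =
        C1 * ((κ : ℝ) ^ T.card * ∑ q ∈ B,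
          ((3 * Fintype.card J : ℕ) : ℝ) ^ q.primeFactors.card * Dev ((∏ p ∈ T, p) * q)) := by
      intro T
      push_cast
      ring
    refine le_trans (by convert key using 1) ?_
    refine add_le_add (le_refl _) (mul_le_mul_of_nonneg_left ?_ (by positivity))
    rw [sum_congr rfl fun T _ => e3 T, ← mul_sum]
    refine mul_le_mul_of_nonneg_left ?_ hC1n
    have hd := dsum κ (3 * Fintype.card J) hκ P hPp ((2 ^ 2 ^ Jj) ^ (C0 * b)) (R ^ 2)
      (P.powerset.filter (fun T : Finset ℕ => ∏ p ∈ T, p ≤ (2 ^ 2 ^ Jj) ^ (C0 * b)))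
      (fun T hT => ⟨mem_powerset.1 (mem_filter.1 hT).1, (mem_filter.1 hT).2⟩) B
      (fun q hq => ?_) ((Icc 1 ⌊((2 : ℝ) ^ 2 ^ Jj) ^ (C0 * b) * R ^ 2⌋₊).filter Squarefree)
      (fun m h1 h2 h3 => ?_) Dev hDev
    · refine le_trans (le_of_eq ?_) (hd.trans (le_of_eq ?_))
      · rfl
      · push_cast
        rfl
    · have hq1 := (mem_filter.1 hq).1
      have hq2 := (mem_filter.1 hq).2
      rw [mem_Icc] at hq1
      refine ⟨hq1.1, ?_, hq2.1, fun p hp hpq => ?_⟩
      · exact (Nat.le_floor_iff (by positivity)).1 hq1.2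
      · obtain ⟨t, ht⟩ := hq2.2 p (hPp p hp) hpq
        exact (hpr t).1 (ht ▸ hp)
    · rw [mem_filter, mem_Icc]
      refine ⟨⟨h1, Nat.le_floor ?_⟩, h3⟩
      push_cast at h2
      exact h2
  · intro T hT hTY c' hc'
    have hTp : ∀ p ∈ T, p.Prime := fun p hp => hPp p (hT hp)
    set e : ℕ := ∏ p ∈ T, p with he
    have heW : e.Coprime W := Nat.Coprime.prod_left fun p hp => hPW p (hT hp)
    have heqC : ∀ q, Over pr q → Squarefree q → e.Coprime q := by
      intro q hq _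
      refine Nat.Coprime.prod_left fun p hp => ?_
      refine (hTp p hp).coprime_iff_not_dvd.2 fun hpq => ?_
      obtain ⟨t, ht⟩ := hq p (hTp p hp) hpq
      exact (hpr t).1 (ht ▸ hT hp)
    have hqW : ∀ q, Over pr q → Squarefree q → q.Coprime W := by
      intro q hq hq2
      refine Nat.Coprime.symm ?_
      by_contra hcon
      obtain ⟨p, hp, hpW, hpq⟩ := Nat.Prime.not_coprime_iff_dvd.1 hcon
      obtain ⟨t, ht⟩ := hq p hp hpq
      have h3 := (hpr t).2
      rw [ht] at h3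
      exact (hp.coprime_iff_not_dvd.1 h3) hpW
    obtain ⟨s1, hs1⟩ := crtT T hTp c' (fun p hp => ((hOm p (hT hp)).2 _ (hc' p hp)).1)
    have res := hS ι J pr L i hSD c R hR hc hcR
      ((S.filter (fun n => n ≡ v [MOD W])).filter (fun n => ∀ p ∈ T, n % p = c' p)) wt
      (K / (Nat.totient (W * e) : ℝ)) (fun q => Dev (e * q)) (fun q => hDev _) ?_
    · have e4 : K / (Nat.totient W : ℝ) * QI i pr c * ∏ p ∈ T, (1 / ((p : ℝ) - 1)) =
          K / (Nat.totient (W * e) : ℝ) * QI i pr c := by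
        rw [Nat.totient_mul heW.symm, ← tot_prod T hTp, ← he, Nat.cast_mul]
        field_simp
      rw [e4]
      convert res using 1
    · intro q hq hqo r hr
      obtain ⟨s2, hs2⟩ := crt2 (heqC q hqo hq) s1 r
      obtain ⟨s3, hs3⟩ := crt2 (show W.Coprime (e * q) from
        (Nat.Coprime.mul_left heW (hqW q hqo hq)).symm) v s2
      have hall : ∀ n, (n ≡ v [MOD W] ∧ (∀ p ∈ T, n % p = c' p) ∧ n ≡ r [MOD q]) ↔
          n ≡ s3 [MOD W * (e * q)] := by
        intro n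
        rw [← hs3, ← hs2, ← hs1]
      have hs3' := (hall s3).2 (Nat.ModEq.refl _)
      have hcopm : (L i s3).Coprime (W * (e * q)) := by
        refine Nat.Coprime.mul_right (hv _ hs3'.1) (Nat.Coprime.mul_right ?_ ?_)
        · refine Nat.Coprime.prod_right fun p hp => ?_
          exact ((hTp p hp).coprime_iff_not_dvd.2
            (((hOm p (hT hp)).2 _ (hc' p hp)).2 s3 (hs3'.2.1 p hp))).symm
        · by_contra hcon
          obtain ⟨p, hp, hpL, hpq⟩ := Nat.Prime.not_coprime_iff_dvd.1 hcon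
          obtain ⟨t, ht⟩ := hqo p hp hpq
          obtain ⟨r0, hr0⟩ := hSD.sol t i
          refine hr p hp hpq ?_
          rw [ht] at hr0
          rw [hr0]
          have h5 := (hr0 s3).1 hpL
          exact ((hs3'.2.2.symm).of_dvd hpq).trans h5
      have hfin := hyp (e * q) ((Nat.squarefree_mul (heqC q hqo hq)).2 ⟨sf_prod T hTp, hq⟩)
        (Nat.Coprime.mul_left heW (hqW q hqo hq)) s3 hcopm
      have e5 : K / (Nat.totient (W * e) : ℝ) / (Nat.totient q : ℝ) =
          K / (Nat.totient (W * (e * q)) : ℝ) := by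
        rw [← mul_assoc, Nat.totient_mul (m := W * e) (n := q)
          (Nat.Coprime.mul_left (hqW q hqo hq).symm (heqC q hqo hq)), Nat.cast_mul, div_div]
      have e6 : ((S.filter (fun n => n ≡ v [MOD W])).filter
          (fun n => ∀ p ∈ T, n % p = c' p)).filter (fun n => n ≡ r [MOD q]) =
          S.filter (fun n => n ≡ s3 [MOD W * (e * q)]) := by
        rw [filter_filter, filter_filter]
        refine filter_congr fun n _ => ?_
        rw [← hall]
      rw [e5, e6]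
      exact hfin

end Pool.Agent.W334.UNPS2
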